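import Pool.Agent.Work.MP_db9399_dp.Interface

/-!
# Block TYAB of `Work/MP_db9399_dp`: types of the edges outside `Z`

Items are the edges (elements of `Sym2 V`) between two given cells. Large blocks: Hall (HALLT) with
the apportionment of `ρ T * |S|`; small blocks: any allowed type.
-/

set_option autoImplicit false

namespace Pool.Agent.Work.MP_db9399_dp.helper83

open Finset Classical
open Pool.Agent.Work.MP_db9399_all (nb)
open Pool.Agent.Work.MP_db9399_dp

universe u

namespace TYABAux

/-- apportionment: nonnegative reals with integral sum are rounded with errors at most 1 -/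
theorem apportion {𝒯 : Type} [Fintype 𝒯] [Nonempty 𝒯] (ρ : 𝒯 → ℝ) (hρ : ∀ T, 0 ≤ ρ T)
    (h1 : ∑ T, ρ T = 1) (N : ℕ) :
    ∃ n : 𝒯 → ℕ, ∑ T, n T = N ∧ ∀ T, |(n T : ℝ) - ρ T * N| ≤ 1 := by
  set fl : 𝒯 → ℕ := fun T => ⌊ρ T * N⌋₊ with hfl
  have hN : (0 : ℝ) ≤ N := Nat.cast_nonneg N
  have hle : ∀ T, (fl T : ℝ) ≤ ρ T * N := fun T => Nat.floor_le (mul_nonneg (hρ T) hN)
  have hlt : ∀ T, ρ T * N < fl T + 1 := fun T => Nat.lt_floor_add_one _
  have hsum : ∑ T, ρ T * N = N := by rw [← Finset.sum_mul, h1, one_mul]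
  have hk1 : ∑ T, fl T ≤ N := by
    have : ((∑ T, fl T : ℕ) : ℝ) ≤ N := by
      push_cast
      calc ∑ T, (fl T : ℝ) ≤ ∑ T, ρ T * N := Finset.sum_le_sum (fun T _ => hle T)
        _ = N := hsum
    exact_mod_cast this
  have hk2 : N - ∑ T, fl T ≤ (univ : Finset 𝒯).card := by
    have : (N : ℝ) ≤ ((∑ T, fl T : ℕ) : ℝ) + (univ : Finset 𝒯).card := by
      push_cast
      calc (N : ℝ) = ∑ T, ρ T * N := hsum.symm
        _ ≤ ∑ T, ((fl T : ℝ) + 1) := Finset.sum_le_sum (fun T _ => (hlt T).le)
        _ = ∑ T, (fl T : ℝ) + (univ : Finset 𝒯).card := by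
          rw [Finset.sum_add_distrib, Finset.sum_const, nsmul_eq_mul, mul_one]
    have h' : N ≤ ∑ T, fl T + (univ : Finset 𝒯).card := by exact_mod_cast this
    omega
  obtain ⟨K, _, hKc⟩ := Finset.exists_subset_card_eq hk2
  refine ⟨fun T => fl T + if T ∈ K then 1 else 0, ?_, ?_⟩
  · rw [Finset.sum_add_distrib, Finset.sum_ite_mem, Finset.univ_inter, Finset.sum_const,
      smul_eq_mul, mul_one, hKc]
    omega
  · intro T
    have a := hle T
    have b := hlt T
    rw [abs_le]
    by_cases hT : T ∈ K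
    · simp only [hT, if_true]
      push_cast
      constructor <;> linarith
    · simp only [hT, if_false]
      push_cast
      constructor <;> linarith

/-- monotonicity of filtered cardinalities, for any two decidability instances -/
theorem card_filter_le {α : Type*} (s : Finset α) (p q : α → Prop) {dp : DecidablePred p}
    {dq : DecidablePred q} (h : ∀ a ∈ s, p a → q a) :
    (@Finset.filter α p dp s).card ≤ (@Finset.filter α q dq s).card := by
  apply Finset.card_le_card
  intro x hx
  rw [Finset.mem_filter] at hx ⊢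
  exact ⟨hx.1, h x hx.1 hx.2⟩

variable {V : Type u} [Fintype V] {I 𝒯 : Type}

/-- allowed types of an edge -/
def al2 (al : V → 𝒯 → Prop) (e : Sym2 V) (T : 𝒯) : Prop := ∀ v ∈ e, al v T

omit [Fintype V] in
theorem al2_mk (al : V → 𝒯 → Prop) (v w : V) (T : 𝒯) :
    al2 al s(v, w) T ↔ al v T ∧ al w T := by
  unfold al2
  constructor
  · intro h
    exact ⟨h v (Sym2.mem_mk_left v w), h w (Sym2.mem_mk_right v w)⟩
  · rintro ⟨h1, h2⟩ x hx
    rcases Sym2.mem_iff.1 hx with rfl | rfl
    · exact h1
    · exact h2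

/-- the edges outside `Z` between the cells of `q` -/
noncomputable def EE (F : SimpleGraph V) (Z : Finset V) (cl : V → I) (q : Sym2 I) :
    Finset (Sym2 V) :=
  univ.filter (fun e => e ∈ F.edgeSet ∧ (∀ v ∈ e, v ∉ Z) ∧ e.map cl = q)

theorem mem_EE (F : SimpleGraph V) (Z : Finset V) (cl : V → I) (q : Sym2 I) (v w : V) :
    s(v, w) ∈ EE F Z cl q ↔ F.Adj v w ∧ v ∉ Z ∧ w ∉ Z ∧ s(cl v, cl w) = q := by
  unfold EE
  rw [Finset.mem_filter]
  constructor
  · rintro ⟨_, h1, h2, h3⟩
    exact ⟨(SimpleGraph.mem_edgeSet F).1 h1, h2 v (Sym2.mem_mk_left v w),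
      h2 w (Sym2.mem_mk_right v w), by simpa using h3⟩
  · rintro ⟨h1, h2, h3, h4⟩
    refine ⟨mem_univ _, (SimpleGraph.mem_edgeSet F).2 h1, ?_, by simpa using h4⟩
    intro x hx
    rcases Sym2.mem_iff.1 hx with rfl | rfl
    · exact h2
    · exact h3

theorem mem_pb (F : SimpleGraph V) (Z : Finset V) (cl : V → I) (A B : I) (p : V × V) :
    p ∈ pb F Z cl A B ↔ F.Adj p.1 p.2 ∧ p.1 ∉ Z ∧ p.2 ∉ Z ∧ cl p.1 = A ∧ cl p.2 = B := by
  unfold pb
  rw [Finset.mem_filter]
  exact ⟨fun h => h.2, fun h => ⟨mem_univ _, h⟩⟩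

/-- the multiplicity of an edge in the ordered pairs -/
noncomputable def kp (A B : I) : ℕ := if A = B then 2 else 1

theorem fiber (F : SimpleGraph V) (Z : Finset V) (cl : V → I) (A B : I) (e : Sym2 V)
    (he : e ∈ EE F Z cl s(A, B)) :
    ((pb F Z cl A B).filter (fun p => s(p.1, p.2) = e)).card = kp A B := by
  induction e using Sym2.ind with
  | _ v w =>
    rw [mem_EE] at he
    obtain ⟨hadj, hv, hw, hq⟩ := he
    have hne : v ≠ w := hadj.ne
    by_cases hAB : A = B
    · subst hAB
      have h2 : cl v = A ∧ cl w = A := by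
        rcases Sym2.eq_iff.1 hq with h | h
        · exact h
        · exact h
      have : (pb F Z cl A A).filter (fun p => s(p.1, p.2) = s(v, w)) = {(v, w), (w, v)} := by
        ext p
        rw [Finset.mem_filter, mem_pb, Finset.mem_insert, Finset.mem_singleton]
        constructor
        · rintro ⟨_, hp⟩
          rcases Sym2.eq_iff.1 hp with h | h
          · left
            exact Prod.ext h.1 h.2
          · right
            exact Prod.ext h.1 h.2
        · rintro (rfl | rfl)
          · exact ⟨⟨hadj, hv, hw, h2.1, h2.2⟩, rfl⟩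
          · exact ⟨⟨hadj.symm, hw, hv, h2.2, h2.1⟩, Sym2.eq_swap⟩
      rw [this, Finset.card_pair]
      · simp [kp]
      · intro h
        exact hne (congrArg Prod.fst h)
    · have hk : kp A B = 1 := by simp [kp, hAB]
      rw [hk, Finset.card_eq_one]
      rcases Sym2.eq_iff.1 hq with h | h
      · refine ⟨(v, w), ?_⟩
        ext p
        rw [Finset.mem_filter, mem_pb, Finset.mem_singleton]
        constructor
        · rintro ⟨hp1, hp⟩
          rcases Sym2.eq_iff.1 hp with h' | h'
          · exact Prod.ext h'.1 h'.2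
          · exfalso
            apply hAB
            rw [← hp1.2.2.2.1, h'.1, h.2]
        · rintro rfl
          exact ⟨⟨hadj, hv, hw, h.1, h.2⟩, rfl⟩
      · refine ⟨(w, v), ?_⟩
        ext p
        rw [Finset.mem_filter, mem_pb, Finset.mem_singleton]
        constructor
        · rintro ⟨hp1, hp⟩
          rcases Sym2.eq_iff.1 hp with h' | h'
          · exfalso
            apply hAB
            rw [← hp1.2.2.2.1, h'.1, h.1]
          · exact Prod.ext h'.1 h'.2
        · rintro rfl
          exact ⟨⟨hadj.symm, hw, hv, h.2, h.1⟩, Sym2.eq_swap⟩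

theorem count (F : SimpleGraph V) (Z : Finset V) (cl : V → I) (A B : I) (Q : Sym2 V → Prop) :
    ((pb F Z cl A B).filter (fun p => Q s(p.1, p.2))).card =
      kp A B * ((EE F Z cl s(A, B)).filter Q).card := by
  have hmap : ∀ p ∈ (pb F Z cl A B).filter (fun p => Q s(p.1, p.2)),
      s(p.1, p.2) ∈ (EE F Z cl s(A, B)).filter Q := by
    intro p hp
    rw [Finset.mem_filter, mem_pb] at hp
    rw [Finset.mem_filter, mem_EE]
    refine ⟨⟨hp.1.1, hp.1.2.1, hp.1.2.2.1, ?_⟩, hp.2⟩
    rw [hp.1.2.2.2.1, hp.1.2.2.2.2]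
  rw [Finset.card_eq_sum_card_fiberwise hmap]
  have : ∀ e ∈ (EE F Z cl s(A, B)).filter Q,
      (((pb F Z cl A B).filter (fun p => Q s(p.1, p.2))).filter
        (fun p => s(p.1, p.2) = e)).card = kp A B := by
    intro e he
    rw [Finset.mem_filter] at he
    rw [← fiber F Z cl A B e he.1]
    congr 1
    ext p
    simp only [Finset.mem_filter]
    constructor
    · rintro ⟨⟨h1, _⟩, h3⟩
      exact ⟨h1, h3⟩
    · rintro ⟨h1, h3⟩
      refine ⟨⟨h1, ?_⟩, h3⟩
      rw [h3]
      exact he.2
  rw [Finset.sum_congr rfl this, Finset.sum_const, smul_eq_mul, mul_comm]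

theorem count0 (F : SimpleGraph V) (Z : Finset V) (cl : V → I) (A B : I) :
    (pb F Z cl A B).card = kp A B * (EE F Z cl s(A, B)).card := by
  have := count F Z cl A B (fun _ => True)
  simpa using this

theorem kp_pos (A B : I) : (1 : ℝ) ≤ kp A B ∧ (kp A B : ℝ) ≤ 2 := by
  unfold kp
  split_ifs <;> norm_num

end TYABAux

open TYABAux in
/-- Block TYAB. -/
theorem stmt_TYAB (hH : Stmt_HALLT.{u}) : Stmt_TYAB.{u} := by
  intro V _ I 𝒯 _ _ _ F Z cl al ρ e L he hρ hρ1 hL hal hrep
  have hL0 : 0 < L := by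
    have ht : (0 : ℝ) < Fintype.card 𝒯 := by exact_mod_cast Fintype.card_pos
    by_contra hcon
    have : e * L ≤ 0 := mul_nonpos_of_nonneg_of_nonpos he.le (not_lt.1 hcon)
    linarith
  have hρle : ∀ T, ρ T ≤ 1 := by
    intro T
    rw [← hρ1]
    exact Finset.single_le_sum (fun T _ => hρ T) (mem_univ T)
  -- one block
  have key : ∀ q : Sym2 I, ∃ τ : Sym2 V → 𝒯, (∀ x ∈ EE F Z cl q, al2 al x (τ x)) ∧
      ∀ A B, s(A, B) = q → ∀ T, |(kp A B : ℝ) * ((EE F Z cl q).filter (fun x => τ x = T)).card -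
        ρ T * (kp A B * (EE F Z cl q).card)| ≤ L + 2 := by
    intro q
    have hal' : ∀ x ∈ EE F Z cl q, ∃ T, al2 al x T := by
      intro x hx
      induction x using Sym2.ind with
      | _ v w =>
        rw [mem_EE] at hx
        obtain ⟨T, hT⟩ := hal v w hx.1 hx.2.1 hx.2.2.1
        exact ⟨T, (al2_mk al v w T).2 hT⟩
    by_cases hbig : ∃ A B, s(A, B) = q ∧ L ≤ ((pb F Z cl A B).card : ℝ)
    · obtain ⟨A, B, hAB, hLp⟩ := hbig
      subst hAB
      have hR := hrep A B hLp
      have hk := kp_pos (I := I) A B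
      have hRep : Rep (al2 al) ρ e (EE F Z cl s(A, B)) := by
        intro U hU
        rcases hR U hU with h | h
        · left
          intro x hx
          induction x using Sym2.ind with
          | _ v w =>
            rw [mem_EE] at hx
            rcases Sym2.eq_iff.1 hx.2.2.2 with hc | hc
            · obtain ⟨T, hT, ha⟩ := h (v, w)
                ((mem_pb F Z cl A B (v, w)).2 ⟨hx.1, hx.2.1, hx.2.2.1, hc.1, hc.2⟩)
              exact ⟨T, hT, (al2_mk al v w T).2 ha⟩
            · obtain ⟨T, hT, ha⟩ := h (w, v)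
                ((mem_pb F Z cl A B (w, v)).2 ⟨hx.1.symm, hx.2.2.1, hx.2.1, hc.2, hc.1⟩)
              exact ⟨T, hT, (al2_mk al v w T).2 ⟨ha.2, ha.1⟩⟩
        · right
          have hc := count F Z cl A B (fun x => ∃ T ∈ U, al2 al x T)
          have h' : (kp A B : ℝ) * ((∑ T ∈ U, ρ T + e) * (EE F Z cl s(A, B)).card) ≤
              (kp A B : ℝ) *
                ((EE F Z cl s(A, B)).filter (fun x => ∃ T ∈ U, al2 al x T)).card := by
            calc (kp A B : ℝ) * ((∑ T ∈ U, ρ T + e) * (EE F Z cl s(A, B)).card)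
                = (∑ T ∈ U, ρ T + e) * ((pb F Z cl A B).card : ℝ) := by
                  rw [count0]
                  push_cast
                  ring
              _ ≤ _ := h
              _ ≤ _ := by
                  rw [← Nat.cast_mul]
                  apply Nat.cast_le.2
                  refine le_trans (card_filter_le _ _ (fun p => ∃ T ∈ U, al2 al s(p.1, p.2) T)
                    ?_) (le_trans (le_of_eq hc) (Nat.mul_le_mul_left _
                      (card_filter_le _ _ _ (fun x _ hx => hx))))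
                  rintro p _ ⟨T, hT, ha⟩
                  exact ⟨T, hT, (al2_mk al p.1 p.2 T).2 ha⟩
          have h'' := le_of_mul_le_mul_left h' (by linarith [hk.1])
          exact h''.trans (Nat.cast_le.2 (card_filter_le _ _ _ (fun x _ hx => hx)))
      obtain ⟨n, hn1, hn2⟩ := apportion ρ hρ hρ1 (EE F Z cl s(A, B)).card
      have hNL : L ≤ 2 * ((EE F Z cl s(A, B)).card : ℝ) := by
        rw [count0] at hLp
        push_cast at hLp
        have : (kp A B : ℝ) * (EE F Z cl s(A, B)).card ≤ 2 * (EE F Z cl s(A, B)).card :=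
          mul_le_mul_of_nonneg_right hk.2 (Nat.cast_nonneg _)
        linarith
      have hcond : ∀ U : Finset 𝒯, (∑ T ∈ U, (n T : ℝ)) ≤
          (∑ T ∈ U, ρ T + e) * (EE F Z cl s(A, B)).card := by
        intro U
        have h1 : ∑ T ∈ U, (n T : ℝ) ≤ ∑ T ∈ U, (ρ T * (EE F Z cl s(A, B)).card + 1) := by
          apply Finset.sum_le_sum
          intro T _
          have := (abs_le.1 (hn2 T)).2
          linarith
        rw [Finset.sum_add_distrib, ← Finset.sum_mul, Finset.sum_const, nsmul_eq_mul,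
          mul_one] at h1
        have h2 : (U.card : ℝ) ≤ Fintype.card 𝒯 := by exact_mod_cast Finset.card_le_univ U
        have h3 : (2 : ℝ) * Fintype.card 𝒯 ≤ e * (2 * (EE F Z cl s(A, B)).card) :=
          hL.trans (mul_le_mul_of_nonneg_left hNL he.le)
        nlinarith
      obtain ⟨τ, hτ1, hτ2⟩ := hH (al2 al) ρ e (EE F Z cl s(A, B)) n hRep hn1 hcond
      refine ⟨τ, hτ1, ?_⟩
      intro A' B' _ T
      have hk' := kp_pos (I := I) A' B'
      rw [hτ2 T]
      have h1 := abs_le.1 (hn2 T)
      have h2 : (kp A' B' : ℝ) * (n T) - ρ T * (kp A' B' * (EE F Z cl s(A, B)).card) =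
          kp A' B' * ((n T : ℝ) - ρ T * (EE F Z cl s(A, B)).card) := by ring
      rw [h2, abs_mul, abs_of_nonneg (by linarith [hk'.1] : (0 : ℝ) ≤ kp A' B')]
      have h3 := hn2 T
      have h4 : (kp A' B' : ℝ) * |(n T : ℝ) - ρ T * (EE F Z cl s(A, B)).card| ≤ 2 * 1 :=
        mul_le_mul hk'.2 h3 (abs_nonneg _) (by norm_num)
      linarith
    · push Not at hbig
      choose! τ hτ using hal'
      refine ⟨τ, hτ, ?_⟩
      intro A B hAB T
      have hs := hbig A B hAB
      rw [count0, hAB] at hs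
      push_cast at hs
      have hk := kp_pos (I := I) A B
      have h1 : ((((EE F Z cl q).filter (fun x => τ x = T)).card : ℕ) : ℝ) ≤
          (EE F Z cl q).card := by
        exact_mod_cast Finset.card_le_card (Finset.filter_subset _ _)
      have h0 : (0 : ℝ) ≤ ((EE F Z cl q).filter (fun x => τ x = T)).card := Nat.cast_nonneg _
      have h00 : (0 : ℝ) ≤ (EE F Z cl q).card := Nat.cast_nonneg _
      have hkk : (0 : ℝ) ≤ kp A B := by linarith [hk.1]
      have h2 : (kp A B : ℝ) * ((EE F Z cl q).filter (fun x => τ x = T)).card ≤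
          kp A B * (EE F Z cl q).card := mul_le_mul_of_nonneg_left h1 hkk
      have h3 : ρ T * (kp A B * (EE F Z cl q).card) ≤ 1 * (kp A B * (EE F Z cl q).card) :=
        mul_le_mul_of_nonneg_right (hρle T) (mul_nonneg hkk h00)
      have h4 : 0 ≤ ρ T * (kp A B * (EE F Z cl q).card) :=
        mul_nonneg (hρ T) (mul_nonneg hkk h00)
      have h5 : 0 ≤ (kp A B : ℝ) * ((EE F Z cl q).filter (fun x => τ x = T)).card :=
        mul_nonneg hkk h0
      rw [abs_le]
      constructor <;> linarith
  choose τ hτ1 hτ2 using key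
  refine ⟨fun v w => τ s(cl v, cl w) s(v, w), ?_, ?_, ?_⟩
  · intro v w
    show τ s(cl v, cl w) s(v, w) = τ s(cl w, cl v) s(w, v)
    rw [Sym2.eq_swap (a := cl v), Sym2.eq_swap (a := v)]
  · intro v w hadj hv hw
    have := hτ1 s(cl v, cl w) s(v, w) ((mem_EE F Z cl _ v w).2 ⟨hadj, hv, hw, rfl⟩)
    exact ((al2_mk al v w _).1 this).1
  · intro A B T
    have h1 := hτ2 s(A, B) A B rfl T
    have h2 : (pb F Z cl A B).filter (fun p => τ s(cl p.1, cl p.2) s(p.1, p.2) = T) =
        (pb F Z cl A B).filter (fun p => τ s(A, B) s(p.1, p.2) = T) := by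
      apply Finset.filter_congr
      intro p hp
      rw [mem_pb] at hp
      rw [hp.2.2.2.1, hp.2.2.2.2]
    have h3 := count F Z cl A B (fun x => τ s(A, B) x = T)
    show |(((pb F Z cl A B).filter (fun p => τ s(cl p.1, cl p.2) s(p.1, p.2) = T)).card : ℝ) -
      ρ T * (pb F Z cl A B).card| ≤ L + 2
    rw [h2, h3, count0]
    push_cast
    exact h1

end Pool.Agent.Work.MP_db9399_dp.helper83
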