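import Pool.Agent.Work.MP_db9399_dp.Interface

/-!
# Block TYPE of `Work/MP_db9399_dp`: types of all prescribed edges

Edges inside `Z`: TYZZ. Edges from `z ∈ Z` to the other vertices: TYPZ. Edges outside `Z`: TYAB.
-/

set_option autoImplicit false

namespace Pool.Agent.Work.MP_db9399_dp.helper83

open Finset Classical
open Pool.Agent.Work.MP_db9399_all (nb)
open Pool.Agent.Work.MP_db9399_dp

universe u

namespace TYPEAux

variable {V : Type u} [Fintype V] {I 𝒯 : Type}

theorem mem_nb (F : SimpleGraph V) (v w : V) : w ∈ nb F v ↔ F.Adj v w := by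
  unfold nb
  rw [Finset.mem_filter]
  exact ⟨fun h => h.2, fun h => ⟨mem_univ _, h⟩⟩

/-- the neighbours outside `Z` -/
noncomputable def So (F : SimpleGraph V) (Z : Finset V) (z : V) : Finset V :=
  (nb F z).filter (fun w => w ∉ Z)

theorem zb_eq (F : SimpleGraph V) (Z : Finset V) (cl : V → I) (z : V) (A : I) :
    (So F Z z).filter (fun w => cl w = A) = zb F Z cl z A := by
  unfold So zb
  ext w
  simp only [Finset.mem_filter]
  constructor
  · rintro ⟨⟨h1, h2⟩, h3⟩
    exact ⟨h1, h2, h3⟩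
  · rintro ⟨h1, h2, h3⟩
    exact ⟨⟨h1, h2⟩, h3⟩

theorem bd_eq (F : SimpleGraph V) (Z : Finset V) (cl : V → I) (Bd : V → Finset I) (z : V) :
    ((So F Z z).filter (fun w => cl w ∈ Bd z)).card = bd F Z cl Bd z := by
  unfold So bd
  congr 1
  ext w
  simp only [Finset.mem_filter]
  constructor
  · rintro ⟨⟨h1, h2⟩, h3⟩
    exact ⟨h1, h2, h3⟩
  · rintro ⟨h1, h2, h3⟩
    exact ⟨⟨h1, h2⟩, h3⟩

theorem So_card (F : SimpleGraph V) (Z : Finset V) (z : V) :
    ((nb F z).filter (fun w => w ∈ Z)).card + (So F Z z).card = (nb F z).card :=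
  Finset.card_filter_add_card_filter_not (fun w => w ∈ Z)

/-- one exceptional vertex -/
theorem one [Fintype I] [Fintype 𝒯] [Nonempty 𝒯] (hZ : Stmt_TYPZ.{u})
    (F : SimpleGraph V) (Z : Finset V) (cl : V → I) (al : V → 𝒯 → Prop) (ρ : 𝒯 → ℝ)
    (m : V → 𝒯 → ℕ) (Bd : V → Finset I) (st : V → I) (e R L : ℝ)
    (h : TyIn F Z cl al ρ m Bd st e R L) (z : V) (hz : z ∈ Z) (c : 𝒯 → ℕ)
    (hc1 : ∑ T, c T = ((nb F z).filter (fun w => w ∈ Z)).card)
    (hc2 : ∀ T, |(c T : ℝ) - ρ T * ((nb F z).filter (fun w => w ∈ Z)).card| ≤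
      4 * Fintype.card 𝒯) :
    ∃ τ : V → 𝒯, (∀ i ∈ So F Z z, al i (τ i)) ∧
      (∀ T, c T + ((So F Z z).filter (fun i => τ i = T)).card = m z T) ∧
      ∀ A T, |((((zb F Z cl z A).filter (fun w => τ w = T)).card : ℕ) : ℝ) -
        ρ T * (zb F Z cl z A).card| ≤ 5 * Fintype.card 𝒯 + 2 + bd F Z cl Bd z := by
  have ht : (1 : ℝ) ≤ Fintype.card 𝒯 := by exact_mod_cast Fintype.card_pos
  set t : ℝ := (Fintype.card 𝒯 : ℝ) with htdef
  have hRR := h.RR
  rw [← htdef] at hRR
  have he := h.e0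
  have hR0 : 0 < R := by
    by_contra hcon
    have : e * R ≤ 0 := mul_nonpos_of_nonneg_of_nonpos he.le (not_lt.1 hcon)
    nlinarith
  have hS := So_card F Z z
  have hSR : R ≤ ((So F Z z).card : ℝ) := by
    refine (h.st3 z hz).trans (Nat.cast_le.2 ?_)
    rw [← zb_eq]
    exact Finset.card_le_card (Finset.filter_subset _ _)
  have hSr : (((nb F z).filter (fun w => w ∈ Z)).card : ℝ) + (So F Z z).card = (nb F z).card := by
    exact_mod_cast hS
  have hρS : ∀ T, 20 * t ^ 2 ≤ ρ T * (So F Z z).card := by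
    intro T
    calc 20 * t ^ 2 ≤ e * R := hRR
      _ ≤ e * (So F Z z).card := mul_le_mul_of_nonneg_left hSR he.le
      _ ≤ ρ T * (So F Z z).card := mul_le_mul_of_nonneg_right (h.ρe T) (Nat.cast_nonneg _)
  have hle : ∀ T, c T ≤ m z T := by
    intro T
    have h1 := abs_le.1 (hc2 T)
    have h2 := abs_le.1 (h.map z hz T)
    have h3 := hρS T
    have h4 : ρ T * ((nb F z).card : ℝ) =
        ρ T * ((nb F z).filter (fun w => w ∈ Z)).card + ρ T * (So F Z z).card := by
      rw [← hSr]; ring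
    have h5 : (c T : ℝ) ≤ m z T := by nlinarith [h1.2, h2.1]
    exact_mod_cast h5
  have hsum : ∑ T, (m z T - c T) = (So F Z z).card := by
    have h1 : ∑ T, (m z T - c T) + ∑ T, c T = ∑ T, m z T := by
      rw [← Finset.sum_add_distrib]
      exact Finset.sum_congr rfl (fun T _ => Nat.sub_add_cancel (hle T))
    rw [hc1, h.msum z hz] at h1
    omega
  have habs : ∀ T, |(((m z T - c T : ℕ)) : ℝ) - ρ T * (So F Z z).card| ≤ 2 + 4 * t := by
    intro T
    rw [Nat.cast_sub (hle T)]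
    have h1 := abs_le.1 (hc2 T)
    have h2 := abs_le.1 (h.map z hz T)
    have h4 : ρ T * ((nb F z).card : ℝ) =
        ρ T * ((nb F z).filter (fun w => w ∈ Z)).card + ρ T * (So F Z z).card := by
      rw [← hSr]; ring
    rw [abs_le]
    constructor <;> linarith [h1.1, h1.2, h2.1, h2.2]
  obtain ⟨τ, h1, h2, h3⟩ := hZ al ρ e R (2 + 4 * t) (So F Z z) cl (Bd z) (st z)
    (fun T => m z T - c T) he h.e1 (by linarith) h.ρe h.ρ1 hsum habs
    (fun i hi => h.al2 i (Finset.mem_filter.1 hi).2)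
    (fun A hA => by
      rw [zb_eq]
      exact h.good z hz A hA)
    (h.st1 z hz) (by rw [zb_eq]; exact h.st2 z hz) (by rw [zb_eq]; exact h.st3 z hz)
    (by rw [zb_eq, bd_eq]; exact h.st4 z hz)
    (by rw [← htdef]; nlinarith)
  refine ⟨τ, h1, ?_, ?_⟩
  · intro T
    rw [h2 T]
    have := hle T
    omega
  · intro A T
    have h4 := h3 A T
    rw [zb_eq, bd_eq, ← htdef] at h4
    have h5 : (So F Z z).filter (fun i => cl i = A ∧ τ i = T) =
        (zb F Z cl z A).filter (fun w => τ w = T) := by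
      rw [← zb_eq]
      ext w
      simp only [Finset.mem_filter]
      constructor
      · rintro ⟨a, b, d⟩
        exact ⟨⟨a, b⟩, d⟩
      · rintro ⟨⟨a, b⟩, d⟩
        exact ⟨a, b, d⟩
    rw [h5] at h4
    refine h4.trans ?_
    linarith

end TYPEAux

open TYPEAux in
/-- Block TYPE. -/
theorem stmt_TYPE (hPZ : Stmt_TYPZ.{u}) (hZZ : Stmt_TYZZ.{u}) (hAB : Stmt_TYAB.{u}) :
    Stmt_TYPE.{u} := by
  intro V _ I 𝒯 _ _ _ F Z cl al ρ m Bd st e R L h
  obtain ⟨τ0, s0, z0⟩ := hZZ F Z ρ (fun T => h.e0.trans_le (h.ρe T)) h.ρ1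
  obtain ⟨τ1, s1, a1, b1⟩ := hAB F Z cl al ρ e L h.e0 (fun T => h.e0.le.trans (h.ρe T)) h.ρ1 h.LL
    h.al1 h.rep
  have key : ∀ z, ∃ τ : V → 𝒯, z ∈ Z → (∀ i ∈ So F Z z, al i (τ i)) ∧
      (∀ T, (((nb F z).filter (fun w => w ∈ Z)).filter (fun w => τ0 z w = T)).card +
        ((So F Z z).filter (fun i => τ i = T)).card = m z T) ∧
      ∀ A T, |((((zb F Z cl z A).filter (fun w => τ w = T)).card : ℕ) : ℝ) -
        ρ T * (zb F Z cl z A).card| ≤ 5 * Fintype.card 𝒯 + 2 + bd F Z cl Bd z := by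
    intro z
    by_cases hz : z ∈ Z
    · obtain ⟨τ, h1, h2, h3⟩ := one hPZ F Z cl al ρ m Bd st e R L h z hz
        (fun T => (((nb F z).filter (fun w => w ∈ Z)).filter (fun w => τ0 z w = T)).card)
        (Finset.card_eq_sum_card_fiberwise (fun _ _ => mem_univ _)).symm (z0 z hz)
      exact ⟨τ, fun _ => ⟨h1, h2, h3⟩⟩
    · exact ⟨fun _ => Classical.arbitrary 𝒯, fun hz' => absurd hz' hz⟩
  choose τz hτz using key
  set τ : V → V → 𝒯 := fun v w =>
    if v ∈ Z then (if w ∈ Z then τ0 v w else τz v w) else (if w ∈ Z then τz w v else τ1 v w)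
    with hτ
  have e00 : ∀ v w, v ∈ Z → w ∈ Z → τ v w = τ0 v w := by
    intro v w hv hw
    simp only [hτ, hv, hw, if_true]
  have e01 : ∀ v w, v ∈ Z → w ∉ Z → τ v w = τz v w := by
    intro v w hv hw
    simp only [hτ, hv, hw, if_true, if_false]
  have e10 : ∀ v w, v ∉ Z → w ∈ Z → τ v w = τz w v := by
    intro v w hv hw
    simp only [hτ, hv, hw, if_true, if_false]
  have e11 : ∀ v w, v ∉ Z → w ∉ Z → τ v w = τ1 v w := by
    intro v w hv hw
    simp only [hτ, hv, hw, if_false]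
  refine ⟨τ, ?_, ?_, ?_, ?_, ?_, ?_⟩
  · intro v w
    by_cases hv : v ∈ Z <;> by_cases hw : w ∈ Z
    · rw [e00 v w hv hw, e00 w v hw hv, s0]
    · rw [e01 v w hv hw, e10 w v hw hv]
    · rw [e10 v w hv hw, e01 w v hw hv]
    · rw [e11 v w hv hw, e11 w v hw hv, s1]
  · intro v w hadj hv
    by_cases hw : w ∈ Z
    · rw [e10 v w hv hw]
      exact (hτz w hw).1 v (Finset.mem_filter.2 ⟨(mem_nb F w v).2 hadj.symm, hv⟩)
    · rw [e11 v w hv hw]
      exact a1 v w hadj hv hw
  · intro z hz T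
    rw [← (hτz z hz).2.1 T]
    rw [← Finset.card_filter_add_card_filter_not (s := (nb F z).filter (fun w => τ z w = T))
      (fun w => w ∈ Z)]
    congr 1
    · congr 1
      ext w
      simp only [Finset.mem_filter]
      constructor
      · rintro ⟨⟨h1, h2⟩, h3⟩
        exact ⟨⟨h1, h3⟩, by rw [← e00 z w hz h3]; exact h2⟩
      · rintro ⟨⟨h1, h3⟩, h2⟩
        exact ⟨⟨h1, by rw [e00 z w hz h3]; exact h2⟩, h3⟩
    · congr 1
      unfold So
      ext w
      simp only [Finset.mem_filter]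
      constructor
      · rintro ⟨⟨h1, h2⟩, h3⟩
        exact ⟨⟨h1, h3⟩, by rw [← e01 z w hz h3]; exact h2⟩
      · rintro ⟨⟨h1, h3⟩, h2⟩
        exact ⟨⟨h1, by rw [e01 z w hz h3]; exact h2⟩, h3⟩
  · intro A B T
    have hEq : (pb F Z cl A B).filter (fun p => τ p.1 p.2 = T) =
        (pb F Z cl A B).filter (fun p => τ1 p.1 p.2 = T) := by
      apply Finset.filter_congr
      intro p hp
      have hp' := (Finset.mem_filter.1 hp).2
      rw [e11 p.1 p.2 hp'.2.1 hp'.2.2.1]
    rw [hEq]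
    exact b1 A B T
  · intro z hz A T
    have hEq : (zb F Z cl z A).filter (fun w => τ z w = T) =
        (zb F Z cl z A).filter (fun w => τz z w = T) := by
      apply Finset.filter_congr
      intro w hw
      have hw' := (Finset.mem_filter.1 hw).2
      rw [e01 z w hz hw'.1]
    rw [hEq]
    exact (hτz z hz).2.2 A T
  · intro z hz T
    have hEq : ((nb F z).filter (fun w => w ∈ Z)).filter (fun w => τ z w = T) =
        ((nb F z).filter (fun w => w ∈ Z)).filter (fun w => τ0 z w = T) := by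
      apply Finset.filter_congr
      intro w hw
      have hw' := (Finset.mem_filter.1 hw).2
      rw [e00 z w hz hw']
    rw [hEq]
    exact z0 z hz T

end Pool.Agent.Work.MP_db9399_dp.helper83
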